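import Pool.Agent.Helper74.CO.Goals

/-!
# Project CO (MP_c5396e_co): orthogonality of multiplicative characters, two mean square bounds
-/

set_option autoImplicit false

namespace Pool.Agent.Helper57.CO

open Finset Pool.Agent.Helper74.CO

section

variable {F : Type} [Field F] [Fintype F]

theorem conj_chi (χ : MulChar F ℂ) (y : F) : (starRingEnd ℂ) (χ y) = χ⁻¹ y :=
  MulChar.star_apply' χ y

variable [DecidableEq F]

theorem sum_one : ∑ y : F, (1 : MulChar F ℂ) y = (Fintype.card F : ℂ) - 1 := by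
  rw [MulChar.sum_one_eq_card_units, Fintype.card_units]
  have h : 1 ≤ Fintype.card F := Fintype.card_pos
  push_cast [h]
  rfl

theorem ort_ne (χ : MulChar F ℂ) (d : F) (hχ : χ ≠ 1) (hd : d ≠ 0) :
    ∑ u, χ (u + d) * χ⁻¹ u = -1 := by
  have h1 : ∀ u, χ (u + d) * χ⁻¹ u = χ (1 + d * u⁻¹) - if u = 0 then 1 else 0 := by
    intro u
    by_cases hu : u = 0
    · subst hu
      rw [if_pos rfl, MulChar.map_zero, mul_zero, inv_zero, mul_zero, add_zero, map_one, sub_self]
    · rw [if_neg hu, sub_zero, MulChar.inv_apply', ← map_mul]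
      congr 1
      field_simp
  rw [Finset.sum_congr rfl fun u _ => h1 u, Finset.sum_sub_distrib, Finset.sum_ite_eq' univ 0,
    if_pos (mem_univ _)]
  have h2 : ∑ u, χ (1 + d * u⁻¹) = ∑ t, χ t := by
    have e1 := Equiv.sum_comp (Equiv.inv F) fun v => χ (1 + d * v)
    have e2 := Equiv.sum_comp (Equiv.mulLeft₀ d hd) fun v => χ (1 + v)
    have e3 := Equiv.sum_comp (Equiv.addLeft (1 : F)) fun v => χ v
    exact e1.trans (e2.trans e3)
  rw [h2, MulChar.sum_eq_zero_of_ne_one hχ, zero_sub]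

end

theorem t_ORT : ∀ (F : Type) [Field F] [Fintype F] [DecidableEq F],
    Pool.Agent.Helper74.CO.ORT F := by
  intro F _ _ _ χ w w' hχ
  by_cases h : w = w'
  · subst h
    rw [if_pos rfl]
    have h1 : ∀ z, χ (w - z) * (starRingEnd ℂ) (χ (w - z)) = (1 : MulChar F ℂ) (w - z) := by
      intro z
      rw [conj_chi, ← MulChar.mul_apply, mul_inv_cancel]
    rw [Finset.sum_congr rfl fun z _ => h1 z, ← sum_one]
    exact Equiv.sum_comp (Equiv.subLeft w) fun v => (1 : MulChar F ℂ) v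
  · rw [if_neg h]
    have h1 := Equiv.sum_comp (Equiv.subLeft w') fun u => χ (u + (w - w')) * χ⁻¹ u
    rw [ort_ne χ (w - w') hχ (sub_ne_zero.2 h)] at h1
    rw [← h1]
    refine Finset.sum_congr rfl fun z _ => ?_
    rw [conj_chi]
    show χ (w - z) * χ⁻¹ (w' - z) = χ (w' - z + (w - w')) * χ⁻¹ (w' - z)
    congr 2
    ring

theorem t_L2M : ∀ (F : Type) [Field F] [Fintype F] [DecidableEq F],
    Pool.Agent.Helper74.CO.L2M F := by
  intro F _ _ _ χ c hχ hc
  have hort := t_ORT F χ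
  have key : ((∑ z, ‖∑ w, c w * χ (w - z)‖ ^ 2 : ℝ) : ℂ) =
      ((Fintype.card F * ∑ w, ‖c w‖ ^ 2 - ‖∑ w, c w‖ ^ 2 : ℝ) : ℂ) := by
    push_cast
    have h1 : ∀ z, ((‖∑ w, c w * χ (w - z)‖ : ℂ)) ^ 2 = ∑ w, ∑ w',
        c w * (starRingEnd ℂ) (c w') * (χ (w - z) * (starRingEnd ℂ) (χ (w' - z))) := by
      intro z
      rw [← Complex.mul_conj', map_sum, Finset.sum_mul_sum]
      refine Finset.sum_congr rfl fun w _ => Finset.sum_congr rfl fun w' _ => ?_
      rw [map_mul]
      ring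
    rw [Finset.sum_congr rfl fun z _ => h1 z, Finset.sum_comm]
    have h2 : ∀ w, ∑ z, ∑ w', c w * (starRingEnd ℂ) (c w') *
        (χ (w - z) * (starRingEnd ℂ) (χ (w' - z))) =
        (Fintype.card F : ℂ) * (‖c w‖ : ℂ) ^ 2 - c w * (starRingEnd ℂ) (∑ w', c w') := by
      intro w
      rw [Finset.sum_comm]
      have h3 : ∀ w', ∑ z, c w * (starRingEnd ℂ) (c w') *
          (χ (w - z) * (starRingEnd ℂ) (χ (w' - z))) =
          (if w = w' then c w * (starRingEnd ℂ) (c w') * (Fintype.card F : ℂ) else 0) -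
            c w * (starRingEnd ℂ) (c w') := by
        intro w'
        rw [← Finset.mul_sum, hort w w' hχ]
        split_ifs <;> ring
      rw [Finset.sum_congr rfl fun w' _ => h3 w', Finset.sum_sub_distrib, Finset.sum_ite_eq univ w,
        if_pos (mem_univ _), Complex.mul_conj', map_sum, Finset.mul_sum]
      ring
    rw [Finset.sum_congr rfl fun w _ => h2 w, Finset.sum_sub_distrib, ← Finset.mul_sum,
      ← Finset.sum_mul, Complex.mul_conj']
  have key' := Complex.ofReal_injective key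
  rw [key']
  have h4 : ∑ w, ‖c w‖ ^ 2 ≤ (Fintype.card F : ℝ) := by
    calc ∑ w, ‖c w‖ ^ 2 ≤ ∑ w : F, (1 : ℝ) := Finset.sum_le_sum fun w _ =>
          pow_le_one₀ (norm_nonneg _) (hc w)
      _ = (Fintype.card F : ℝ) := by simp
  have h5 : (0 : ℝ) ≤ (Fintype.card F : ℝ) := Nat.cast_nonneg _
  nlinarith [sq_nonneg ‖∑ w, c w‖, mul_le_mul_of_nonneg_left h4 h5]

theorem t_L2A : ∀ (F : Type) [Field F] [Fintype F] [DecidableEq F],
    Pool.Agent.Helper74.CO.L2A F := by
  intro F _ _ _ ψ c hψ hc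
  have key : ((∑ z, ‖∑ w, c w * ψ (z * w)‖ ^ 2 : ℝ) : ℂ) =
      ((Fintype.card F * ∑ w, ‖c w‖ ^ 2 : ℝ) : ℂ) := by
    push_cast
    have h1 : ∀ z, ((‖∑ w, c w * ψ (z * w)‖ : ℂ)) ^ 2 = ∑ w, ∑ w',
        c w * (starRingEnd ℂ) (c w') * ψ (z * (w - w')) := by
      intro z
      rw [← Complex.mul_conj', map_sum, Finset.sum_mul_sum]
      refine Finset.sum_congr rfl fun w _ => Finset.sum_congr rfl fun w' _ => ?_
      rw [map_mul (starRingEnd ℂ), ← AddChar.map_neg_eq_conj, mul_sub, sub_eq_add_neg, AddChar.map_add_eq_mul]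
      ring
    rw [Finset.sum_congr rfl fun z _ => h1 z, Finset.sum_comm, Finset.mul_sum]
    refine Finset.sum_congr rfl fun w _ => ?_
    rw [Finset.sum_comm]
    have h3 : ∀ w', ∑ z, c w * (starRingEnd ℂ) (c w') * ψ (z * (w - w')) =
        if w = w' then c w * (starRingEnd ℂ) (c w') * (Fintype.card F : ℂ) else 0 := by
      intro w'
      rw [← Finset.mul_sum, AddChar.sum_mulShift _ (AddChar.IsPrimitive.of_ne_one hψ)]
      by_cases h : w = w'
      · rw [if_pos h, if_pos (sub_eq_zero.2 h)]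
      · rw [if_neg h, if_neg fun h' => h (sub_eq_zero.1 h')]
        simp
    rw [Finset.sum_congr rfl fun w' _ => h3 w', Finset.sum_ite_eq univ w, if_pos (mem_univ _),
      Complex.mul_conj', mul_comm]
  have key' := Complex.ofReal_injective key
  rw [key']
  have h4 : ∑ w, ‖c w‖ ^ 2 ≤ (Fintype.card F : ℝ) := by
    calc ∑ w, ‖c w‖ ^ 2 ≤ ∑ w : F, (1 : ℝ) := Finset.sum_le_sum fun w _ =>
          pow_le_one₀ (norm_nonneg _) (hc w)
      _ = (Fintype.card F : ℝ) := by simp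
  have h5 : (0 : ℝ) ≤ (Fintype.card F : ℝ) := Nat.cast_nonneg _
  nlinarith [mul_le_mul_of_nonneg_left h4 h5]

end Pool.Agent.Helper57.CO
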